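import Mathlib
import Pool.Agent.H22.Half

namespace Pool.Agent.Results.MP_d39372_al.Normal

/-- A loop: two-sided identity and unique solvability of `a x = b` and `y a = b`. -/
def IsLoop (Q : Type*) [Mul Q] [One Q] : Prop :=
  (∀ x : Q, 1 * x = x) ∧ (∀ x : Q, x * 1 = x) ∧
    (∀ a b : Q, ∃! x, a * x = b) ∧ (∀ a b : Q, ∃! y, y * a = b)

/-- The Moufang identity. -/
def IsMoufang (Q : Type*) [Mul Q] : Prop :=
  ∀ x y z : Q, x * (y * (x * z)) = ((x * y) * x) * z

/-- Half-homomorphism. -/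
def IsHalfHom {Q R : Type*} [Mul Q] [Mul R] (φ : Q → R) : Prop :=
  ∀ a b, φ (a * b) = φ a * φ b ∨ φ (a * b) = φ b * φ a

/-- Subloop: contains `1`, closed under multiplication and both divisions. -/
def IsSubloop {Q : Type*} [Mul Q] [One Q] (K : Set Q) : Prop :=
  (1 : Q) ∈ K ∧ (∀ a ∈ K, ∀ b ∈ K, a * b ∈ K) ∧
    (∀ a ∈ K, ∀ b ∈ K, ∀ x, a * x = b → x ∈ K) ∧ (∀ a ∈ K, ∀ b ∈ K, ∀ y, y * a = b → y ∈ K)

/-- Normal subloop: `xK = Kx`, `x(yK) = (xy)K`, `(Kx)y = K(xy)`. -/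
def IsNormalSubloop {Q : Type*} [Mul Q] [One Q] (K : Set Q) : Prop :=
  IsSubloop K ∧ ∀ x y : Q,
    (fun k => x * k) '' K = (fun k => k * x) '' K ∧
    (fun k => x * (y * k)) '' K = (fun k => (x * y) * k) '' K ∧
    (fun k => (k * x) * y) '' K = (fun k => k * (x * y)) '' K

theorem result {Q R : Type*} [Mul Q] [One Q] [Mul R] [One R]
    (hQ : IsLoop Q) (hM : IsMoufang Q) (hR : IsLoop R) (φ : Q → R) (hφ : IsHalfHom φ) :
    IsNormalSubloop {a : Q | φ a = 1} := by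
  obtain ⟨om, mo, sl, sr⟩ := hQ
  choose i hi using fun a : Q => (sr a 1).exists
  have lc : ∀ a x y : Q, a * x = a * y → x = y := fun a x y e => (sl a (a * y)).unique e rfl
  have flex : ∀ x y : Q, x * (y * x) = (x * y) * x := by
    intro x y; have := hM x y 1; rwa [mo, mo] at this
  have li : ∀ x y : Q, i x * (x * y) = y := by
    intro x y
    apply lc x
    rw [hM, ← flex, hi, mo]
  have ir : ∀ x : Q, x * i x = 1 := by
    intro x
    obtain ⟨r, hr⟩ := (sl x 1).exists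
    have := li x r
    rw [hr, mo] at this
    rw [this, hr]
  have li' : ∀ x y : Q, x * (i x * y) = y := by
    intro x y
    obtain ⟨r, hr⟩ := (sl x y).exists
    rw [← hr, li]
  have ri : ∀ x y : Q, (y * x) * i x = y := by
    intro x y
    have := hM x (i x * y) (i x)
    rw [ir, mo, li'] at this
    exact this.symm
  have H : H22Half.HH i φ :=
    ⟨⟨om, mo, li, ri, hM⟩, hR.1, hR.2.1,
      fun a x y e => (hR.2.2.1 a (a * y)).unique e rfl,
      fun a x y e => (hR.2.2.2 a (y * a)).unique e rfl, hφ⟩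
  refine ⟨⟨H.one, ?_, ?_, ?_⟩, fun x y => ⟨?_, ?_, ?_⟩⟩
  · intro a ha b hb
    exact ((H.kr a b).2 hb).trans ha
  · intro a ha b hb x e
    exact (H.kr a x).1 (by rw [e]; exact hb.trans ha.symm)
  · intro a ha b hb x e
    exact (H.kl x a).1 (by rw [e]; exact hb.trans ha.symm)
  · ext z
    constructor
    · rintro ⟨k, hk, rfl⟩
      exact ⟨(x * k) * i x, (H.e1 _ _).2 ((H.kr _ _).2 hk), H.ip.ri' _ _⟩
    · rintro ⟨k, hk, rfl⟩
      exact ⟨i x * (k * x), (H.e2 _ _).2 ((H.kl _ _).2 hk), H.ip.li' _ _⟩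
  · ext z
    constructor
    · rintro ⟨k, hk, rfl⟩
      exact ⟨i (x * y) * (x * (y * k)), (H.e2 _ _).2 (H.left x ((H.kr _ _).2 hk)), H.ip.li' _ _⟩
    · rintro ⟨k, hk, rfl⟩
      refine ⟨i y * (i x * ((x * y) * k)), (H.e2 _ _).2 ?_, ?_⟩
      · have := H.left (i x) ((H.kr (x * y) k).2 hk)
        rwa [li x y] at this
      · show x * (y * (i y * (i x * ((x * y) * k)))) = _
        rw [li', li']
  · ext z
    constructor
    · rintro ⟨k, hk, rfl⟩
      exact ⟨((k * x) * y) * i (x * y), (H.e1 _ _).2 (H.right y ((H.kl _ _).2 hk)), H.ip.ri' _ _⟩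
    · rintro ⟨k, hk, rfl⟩
      refine ⟨((k * (x * y)) * i y) * i x, (H.e1 _ _).2 ?_, ?_⟩
      · have := H.right (i y) ((H.kl k (x * y)).2 hk)
        rwa [ri y x] at this
      · show ((((k * (x * y)) * i y) * i x) * x) * y = _
        rw [H.ip.ri', H.ip.ri']

end Pool.Agent.Results.MP_d39372_al.Normal
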